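import Pool.Agent.Helper36.EV.Goals

/-!
# Packet REG (helper36, evolution equations in a graded space)
-/

namespace Pool.Agent.Helper69.EV

open Set Filter Topology
open Pool.Agent.Helper36.EV

variable {X H : Type} [AddCommGroup X] [Module ℝ X] [NormedAddCommGroup H] [NormedSpace ℝ H]

theorem sap_lip (S : Scale X H) (u0 : X) (n m : ℕ) : ∃ C, 0 ≤ C ∧ ∀ h k : H,
    S.nrm m (S.J n (S.ι (u0 + S.J n h)) - S.J n (S.ι (u0 + S.J n k))) ≤ C * ‖h - k‖ := by
  obtain ⟨C, hC0, hC⟩ := S.bJ' n m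
  refine ⟨C, hC0, fun h k => ?_⟩
  have h1 : S.J n (S.ι (u0 + S.J n h)) - S.J n (S.ι (u0 + S.J n k)) = S.J n (S.ι (S.J n (h - k))) := by
    rw [← map_sub, ← map_sub, add_sub_add_left_eq_sub, ← map_sub]
  rw [h1]
  exact (S.nrm_J_le n m _).trans (hC _)

theorem reg : Pool.Agent.Helper36.EV.G_REG := by
  intro X H _ _ _ _ S E n
  obtain ⟨Ci, hCi0, hCi⟩ := S.bι'
  constructor
  · intro p hp
    apply tendsto_of_seq_tendsto
    intro z hz
    have hz1 : Tendsto z atTop (𝓝 p) := hz.mono_right nhdsWithin_le_nhds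
    have hz2 : ∀ᶠ j in atTop, z j ∈ (Icc 0 E.T ×ˢ univ : Set (ℝ × H)) :=
      hz.eventually self_mem_nhdsWithin
    classical
    let z' : ℕ → ℝ × H := fun j => if (z j).1 ∈ Icc 0 E.T then z j else p
    have hz'mem : ∀ j, (z' j).1 ∈ Icc 0 E.T := by
      intro j
      by_cases hj : (z j).1 ∈ Icc 0 E.T
      · simp only [z', if_pos hj]; exact hj
      · simp only [z', if_neg hj]; exact hp.1
    have hz'eq : z =ᶠ[atTop] z' := by
      filter_upwards [hz2] with j hj
      simp only [z', if_pos hj.1]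
    have hz't : Tendsto z' atTop (𝓝 p) := hz1.congr' hz'eq
    have hlim : S.Lim (fun j => S.J n (S.ι (E.u0 + S.J n (z' j).2)))
        (S.J n (S.ι (E.u0 + S.J n p.2))) := by
      intro m
      obtain ⟨C, hC0, hC⟩ := sap_lip S E.u0 n m
      have h1 : Tendsto (fun j => (C * ‖(z' j).2 - p.2‖) ^ 2) atTop (𝓝 0) := by
        have h2 : Tendsto (fun j => (z' j).2 - p.2) atTop (𝓝 (p.2 - p.2)) :=
          ((continuous_snd.tendsto p).comp hz't).sub_const _
        rw [sub_self] at h2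
        have h3 := (h2.norm.const_mul C).pow 2
        simpa using h3
      refine squeeze_zero (fun j => S.q_nonneg _ _) (fun j => ?_) h1
      exact S.q_le_of_nrm_le (hC _ _)
    have hF := E.F0 (fun j => (z' j).1) _ p.1 _ hz'mem hp.1
      ((continuous_fst.tendsto p).comp hz't) hlim
    have hF0 := hF 0
    have hgoal : Tendsto (fun j => S.ι (E.F (z' j).1 (S.J n (S.ι (E.u0 + S.J n (z' j).2))))) atTop
        (𝓝 (S.ι (E.F p.1 (S.J n (S.ι (E.u0 + S.J n p.2)))))) := by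
      rw [tendsto_iff_norm_sub_tendsto_zero]
      have h1 : Tendsto (fun j => Ci * Real.sqrt (S.q 0
          (E.F (z' j).1 (S.J n (S.ι (E.u0 + S.J n (z' j).2))) -
            E.F p.1 (S.J n (S.ι (E.u0 + S.J n p.2)))))) atTop (𝓝 0) := by
        have h2 := ((Real.continuous_sqrt.tendsto 0).comp hF0).const_mul Ci
        simpa using h2
      refine squeeze_zero (fun j => norm_nonneg _) (fun j => ?_) h1
      rw [← map_sub]
      exact hCi _
    refine hgoal.congr' ?_
    filter_upwards [hz'eq] with j hj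
    simp only [Function.comp, hj]
  · intro a
    obtain ⟨m', hm'⟩ := E.F2
    obtain ⟨C, hC0, hC⟩ := sap_lip S E.u0 n m'
    set X0 := S.J n (S.ι (E.u0 + S.J n 0)) with hX0
    obtain ⟨C2, hC2⟩ := hm' ((S.nrm m' X0 + C * |a|) ^ 2)
    refine ⟨Ci * (Real.sqrt |C2| * C), fun t ht h k hh hk => ?_⟩
    have hb : ∀ h : H, ‖h‖ ≤ a → S.q m' (S.J n (S.ι (E.u0 + S.J n h))) ≤
        (S.nrm m' X0 + C * |a|) ^ 2 := by
      intro h hh
      apply S.q_le_of_nrm_le
      have h1 : S.J n (S.ι (E.u0 + S.J n h)) =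
          X0 + (S.J n (S.ι (E.u0 + S.J n h)) - X0) := by abel
      rw [h1]
      refine (S.nrm_add_le _ _ _).trans ?_
      have h2 := hC h 0
      rw [sub_zero] at h2
      have h3 : C * ‖h‖ ≤ C * |a| := mul_le_mul_of_nonneg_left (hh.trans (le_abs_self a)) hC0
      linarith
    have h1 := hC2 t ht _ _ (hb h hh) (hb k hk)
    have h2 := hC h k
    set x := S.J n (S.ι (E.u0 + S.J n h)) with hx
    set y := S.J n (S.ι (E.u0 + S.J n k)) with hy
    have h3 : S.nrm 0 (E.F t x - E.F t y) ≤ Real.sqrt |C2| * C * ‖h - k‖ := by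
      apply S.nrm_le_of_q_le _ (by positivity)
      have h4 : S.q m' (x - y) ≤ (C * ‖h - k‖) ^ 2 := S.q_le_of_nrm_le h2
      have h5 : (Real.sqrt |C2| * C * ‖h - k‖) ^ 2 = |C2| * (C * ‖h - k‖) ^ 2 := by
        rw [mul_assoc, mul_pow, Real.sq_sqrt (abs_nonneg _)]
      rw [h5]
      calc S.q 0 (E.F t x - E.F t y) ≤ C2 * S.q m' (x - y) := h1
        _ ≤ |C2| * S.q m' (x - y) := mul_le_mul_of_nonneg_right (le_abs_self _) (S.q_nonneg _ _)
        _ ≤ |C2| * (C * ‖h - k‖) ^ 2 := mul_le_mul_of_nonneg_left h4 (abs_nonneg _)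
    rw [← map_sub]
    calc ‖S.ι (E.F t x - E.F t y)‖ ≤ Ci * S.nrm 0 (E.F t x - E.F t y) := hCi _
      _ ≤ Ci * (Real.sqrt |C2| * C * ‖h - k‖) := mul_le_mul_of_nonneg_left h3 hCi0
      _ = _ := by ring

end Pool.Agent.Helper69.EV
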